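import Mathlib

set_option autoImplicit false

namespace Pool.Agent.Results.MP_454c72_al.CommonRoots

open Finset Polynomial

/-- `B(n,k) = C(n, ⌊(n-k)/2⌋)` for `0 ≤ k ≤ n`. -/
def B (n k : ℕ) : ℕ := n.choose ((n - k) / 2)

/-- The `n`th Pascalian polynomial `P_n(z) = ∑_{k=0}^n B(n,k) z^(n-k)`. -/
noncomputable def pascalian (n : ℕ) : Polynomial ℤ :=
  ∑ k ∈ range (n + 1), C (B n k : ℤ) * X ^ (n - k)

/-- normalised central binomial coefficients `b_l = C(2l,l)/4^l` -/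
noncomputable def b : ℕ → ℝ
  | 0 => 1
  | (l + 1) => b l * ((2 * l + 1) / (2 * l + 2))

lemma b_zero : b 0 = 1 := rfl
lemma b_succ (l : ℕ) : b (l + 1) = b l * ((2 * l + 1) / (2 * l + 2)) := rfl

lemma b_pos (l : ℕ) : 0 < b l := by
  induction l with
  | zero => rw [b_zero]; norm_num
  | succ l ih => rw [b_succ]; positivity

lemma b_succ_le (l : ℕ) : b (l + 1) ≤ b l := by
  rw [b_succ]
  have h := b_pos l
  have h2 : ((2 * (l:ℝ) + 1) / (2 * l + 2)) ≤ 1 := by
    rw [div_le_one (by positivity)]; linarith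
  nlinarith

/-- evaluation of the Pascalian polynomial -/
lemma pascalian_aeval (n : ℕ) (z : ℂ) :
    aeval z (pascalian n) = ∑ j ∈ range (n + 1), (n.choose (j / 2) : ℂ) * z ^ j := by
  unfold pascalian
  rw [map_sum, ← Finset.sum_range_reflect]
  apply Finset.sum_congr rfl
  intro j hj
  rw [Finset.mem_range] at hj
  have h1 : n - (n + 1 - 1 - j) = j := by omega
  simp only [B, h1, map_mul, map_pow, aeval_X]
  congr 1
  simp

/-- central coefficient -/
def Mc (n : ℕ) : ℕ := n.choose (n / 2)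

lemma choose_half (n : ℕ) : n.choose ((n + 1) / 2) = n.choose (n / 2) := by
  have h : (n + 1) / 2 ≤ n := by omega
  have h2 : n - (n + 1) / 2 = n / 2 := by omega
  rw [← Nat.choose_symm h, h2]

lemma choose_rec (n j : ℕ) :
    ((n + 1).choose ((j + 2) / 2)) = n.choose (j / 2) + n.choose ((j + 2) / 2) := by
  have h : (j + 2) / 2 = j / 2 + 1 := by omega
  rw [h, Nat.choose_succ_succ]

lemma pascal_rec (n : ℕ) (z : ℂ) :
    aeval z (pascalian (n + 1)) =
      (1 + z ^ 2) * aeval z (pascalian n) + (Mc n : ℂ) * z ^ (n + 1) * (1 - z) := by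
  rw [pascalian_aeval, pascalian_aeval]
  set f : ℕ → ℂ := fun j => (n.choose (j / 2) : ℂ) * z ^ j with hf
  -- split off first two terms
  have e1 : ∑ j ∈ range (n + 1 + 1), (((n + 1).choose (j / 2) : ℕ) : ℂ) * z ^ j
      = (1 + z) + ∑ j ∈ range n, (((n + 1).choose ((j + 2) / 2) : ℕ) : ℂ) * z ^ (j + 2) := by
    rw [Finset.sum_range_succ', Finset.sum_range_succ']
    have h0 : (((n + 1).choose (0 / 2) : ℕ) : ℂ) = 1 := by simp
    rw [h0]
    simp only [Nat.add_assoc, Nat.reduceAdd]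
    simp
    ring
  have e2 : ∑ j ∈ range n, (((n + 1).choose ((j + 2) / 2) : ℕ) : ℂ) * z ^ (j + 2)
      = z ^ 2 * (∑ j ∈ range n, f j) + ∑ j ∈ range n, f (j + 2) := by
    rw [Finset.mul_sum, ← Finset.sum_add_distrib]
    apply Finset.sum_congr rfl
    intro j _
    rw [choose_rec]
    simp only [hf]
    push_cast
    ring
  have e3 : ∑ j ∈ range (n + 2), f j = (1 + z) + ∑ j ∈ range n, f (j + 2) := by
    rw [Finset.sum_range_succ', Finset.sum_range_succ']
    have h0 : f 0 = 1 := by simp [hf]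
    have h1 : f (0 + 1) = z := by simp [hf]
    rw [h0, h1]
    have h2 : ∀ j, j + 1 + 1 = j + 2 := fun j => rfl
    simp only [h2]
    ring
  have e4 : ∑ j ∈ range (n + 2), f j = ∑ j ∈ range (n + 1), f j + f (n + 1) := by
    rw [Finset.sum_range_succ]
  have e5 : ∑ j ∈ range (n + 1), f j = ∑ j ∈ range n, f j + f n := by
    rw [Finset.sum_range_succ]
  have e6 : f (n + 1) = (Mc n : ℂ) * z ^ (n + 1) := by
    simp only [hf, Mc]
    rw [choose_half]
  have e7 : f n = (Mc n : ℂ) * z ^ n := by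
    simp only [hf, Mc]
  rw [e1, e2]
  have e8 : ∑ j ∈ range n, f (j + 2) = ∑ j ∈ range (n + 1), f j + f (n + 1) - (1 + z) := by
    rw [← e4, e3]; ring
  rw [e8]
  have e9 : ∑ j ∈ range n, f j = ∑ j ∈ range (n + 1), f j - f n := by rw [e5]; ring
  rw [e9, e6, e7]
  ring

/-- coefficients `s_i = b_{⌊i/2⌋}` -/
noncomputable def s (i : ℕ) : ℝ := b (i / 2)

lemma Mc_eq (n : ℕ) : (Mc n : ℝ) = 2 ^ n * s (n + 1) := by
  -- prove for n = 2 l and n = 2 l + 1 simultaneously
  have key : ∀ l : ℕ, ((2 * l).choose l : ℝ) = 4 ^ l * b l ∧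
      ((2 * l + 1).choose l : ℝ) = 2 * 4 ^ l * b (l + 1) := by
    intro l
    have h1 : ∀ l : ℕ, ((2 * l).choose l : ℝ) = 4 ^ l * b l := by
      intro l
      induction l with
      | zero => simp [b_zero]
      | succ l ih =>
        have hc : ((l : ℝ) + 1) * ((2 * (l + 1)).choose (l + 1) : ℝ)
            = 2 * (2 * l + 1) * ((2 * l).choose l : ℝ) := by
          have := Nat.succ_mul_centralBinom_succ l
          simp only [Nat.centralBinom] at this
          have h2 := congrArg (fun x : ℕ => (x : ℝ)) this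
          push_cast at h2
          linarith
        rw [ih] at hc
        rw [b_succ]
        have hl : ((l : ℝ) + 1) ≠ 0 := by positivity
        have hl2 : (2 * (l : ℝ) + 2) ≠ 0 := by positivity
        field_simp
        rw [pow_succ]
        nlinarith [hc]
    refine ⟨h1 l, ?_⟩
    have h2 : (2 * (l + 1)).choose (l + 1) = 2 * (2 * l + 1).choose l := by
      have h3 : (2 * (l + 1)).choose (l + 1) = (2 * l + 1).choose l + (2 * l + 1).choose (l + 1) := by
        have : 2 * (l + 1) = (2 * l + 1) + 1 := by ring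
        rw [this, Nat.choose_succ_succ]
      have h4 : (2 * l + 1).choose (l + 1) = (2 * l + 1).choose l := by
        rw [← Nat.choose_symm (by omega : l + 1 ≤ 2 * l + 1)]
        congr 1
        omega
      omega
    have h5 := h1 (l + 1)
    rw [h2] at h5
    push_cast at h5
    rw [pow_succ] at h5
    linarith
  rcases Nat.even_or_odd n with ⟨l, hl⟩ | ⟨l, hl⟩
  · have h1 : n = 2 * l := by omega
    subst h1
    have e1 : (2 * l) / 2 = l := by omega
    have e2 : (2 * l + 1) / 2 = l := by omega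
    simp only [Mc, s, e1, e2]
    rw [(key l).1, pow_mul]
    norm_num
  · subst hl
    have e1 : (2 * l + 1) / 2 = l := by omega
    have e2 : (2 * l + 1 + 1) / 2 = l + 1 := by omega
    simp only [Mc, s, e1, e2]
    rw [(key l).2, pow_succ, pow_mul]
    have e4 : (2:ℝ) ^ 2 = 4 := by norm_num
    rw [e4]
    ring

/-! ### The truncated square root -/

/-- `S_m = ∑_{l<m} b_l X^l` -/
noncomputable def SP (m : ℕ) : ℝ[X] := ∑ l ∈ range m, C (b l) * X ^ l

/-- `A_m = b_m X^m + (1-X) S_m`, the Taylor polynomial of `√(1-X)` of degree `m` -/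
noncomputable def AP (m : ℕ) : ℝ[X] := C (b m) * X ^ m + (1 - X) * SP m

/-- `A_m^2 - (1-X)` -/
noncomputable def CP (m : ℕ) : ℝ[X] := AP m ^ 2 - (1 - X)

lemma AP_zero : AP 0 = 1 := by simp [AP, SP, b_zero]

lemma AP_succ (m : ℕ) : AP (m + 1) = AP m - C (b m - b (m + 1)) * X ^ (m + 1) := by
  unfold AP SP
  rw [Finset.sum_range_succ, C_sub]
  ring

lemma AP_ode (m : ℕ) : 2 * (1 - X) * derivative (AP m) + AP m = C (b m) * X ^ m := by
  induction m with
  | zero => rw [AP_zero]; simp [b_zero]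
  | succ m ih =>
    have hb : b m = (2 * (m : ℝ) + 2) * (b m - b (m + 1)) := by
      rw [b_succ]; field_simp; ring
    have hb2 : b (m + 1) = (2 * (m : ℝ) + 1) * (b m - b (m + 1)) := by
      rw [b_succ]; field_simp; ring
    have hd : derivative (AP (m + 1)) = derivative (AP m)
        - C (b m - b (m + 1)) * (C ((m : ℝ) + 1) * X ^ m) := by
      rw [AP_succ, derivative_sub, derivative_C_mul, derivative_X_pow]
      simp
    rw [hd, AP_succ]
    have e1 : 2 * (1 - X) * (derivative (AP m) - C (b m - b (m + 1)) * (C ((m : ℝ) + 1) * X ^ m))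
        + (AP m - C (b m - b (m + 1)) * X ^ (m + 1))
        = (2 * (1 - X) * derivative (AP m) + AP m)
          - 2 * (1 - X) * (C (b m - b (m + 1)) * (C ((m : ℝ) + 1) * X ^ m))
          - C (b m - b (m + 1)) * X ^ (m + 1) := by ring
    rw [e1, ih]
    have e2 : C (b m) = (2 * C ((m : ℝ) + 1)) * C (b m - b (m + 1)) := by
      have : (2 : ℝ[X]) = C 2 := rfl
      rw [this, ← C_mul, ← C_mul]
      congr 1
      linarith
    have e3 : C (b (m + 1)) = (2 * C ((m : ℝ) + 1) - 1) * C (b m - b (m + 1)) := by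
      have : (2 : ℝ[X]) = C 2 := rfl
      have h1 : (1 : ℝ[X]) = C 1 := rfl
      rw [this, h1, ← C_mul, ← C_sub, ← C_mul]
      congr 1
      linarith
    rw [e2, e3]
    ring

lemma CP_ode (m : ℕ) : (1 - X) * derivative (CP m) + CP m = C (b m) * X ^ m * AP m := by
  have h : derivative (CP m) = 2 * AP m * derivative (AP m) + 1 := by
    unfold CP
    rw [derivative_sub, derivative_sq, derivative_sub]
    have h2 : (C 2 : ℝ[X]) = 2 := rfl
    simp [h2]
  rw [h]
  have h2 := AP_ode m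
  rw [← h2]
  unfold CP
  ring

lemma AP_coeff_zero (m : ℕ) : (AP m).coeff 0 = 1 := by
  induction m with
  | zero => rw [AP_zero]; simp
  | succ m ih =>
    rw [AP_succ, coeff_sub, ih, coeff_C_mul, coeff_X_pow]
    simp

lemma AP_coeff_nonpos (m i : ℕ) (hi : 1 ≤ i) : (AP m).coeff i ≤ 0 := by
  induction m with
  | zero => rw [AP_zero, coeff_one]; split_ifs with h <;> [omega; exact le_refl 0]
  | succ m ih =>
    rw [AP_succ, coeff_sub, coeff_C_mul, coeff_X_pow]
    have := b_succ_le m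
    split_ifs
    · linarith
    · linarith

lemma AP_coeff_big (m i : ℕ) (hi : m < i) : (AP m).coeff i = 0 := by
  induction m with
  | zero => rw [AP_zero, coeff_one]; split_ifs with h <;> [omega; rfl]
  | succ m ih =>
    rw [AP_succ, coeff_sub, coeff_C_mul, coeff_X_pow, ih (by omega)]
    rw [if_neg (by omega)]
    simp

lemma CP_coeff_rec (m t : ℕ) (ht : t < m) :
    ((t : ℝ) + 1) * (CP m).coeff (t + 1) = ((t : ℝ) - 1) * (CP m).coeff t := by
  have h := congrArg (fun p : ℝ[X] => p.coeff t) (CP_ode m)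
  simp only [coeff_add] at h
  have hr : (C (b m) * X ^ m * AP m).coeff t = 0 := by
    rw [mul_assoc, coeff_C_mul, mul_comm (X ^ m) (AP m), coeff_mul_X_pow']
    rw [if_neg (by omega)]
    simp
  rw [hr] at h
  have e1 : ((1 - X) * derivative (CP m)).coeff t
      = (derivative (CP m)).coeff t - (X * derivative (CP m)).coeff t := by
    rw [sub_mul, one_mul, coeff_sub]
  rw [e1, coeff_derivative] at h
  cases t with
  | zero =>
    rw [coeff_X_mul_zero] at h
    simp at h ⊢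
    linarith
  | succ t =>
    rw [coeff_X_mul, coeff_derivative] at h
    push_cast at h ⊢
    linarith

lemma CP_coeff_small (m t : ℕ) (ht : t ≤ m) : (CP m).coeff t = 0 := by
  induction t with
  | zero =>
    unfold CP
    rw [coeff_sub, sq, mul_coeff_zero, AP_coeff_zero]
    simp
  | succ t ih =>
    have h := CP_coeff_rec m t (by omega)
    rw [ih (by omega), mul_zero] at h
    have h2 : ((t : ℝ) + 1) ≠ 0 := by positivity
    exact (mul_eq_zero.mp h).resolve_left h2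

lemma CP_coeff_nonneg (m t : ℕ) : 0 ≤ (CP m).coeff t := by
  rcases Nat.lt_or_ge m t with h | h
  · unfold CP
    rw [coeff_sub, sq, coeff_mul]
    have h1 : ((1 : ℝ[X]) - X).coeff t ≤ 0 := by
      rw [coeff_sub, coeff_one, coeff_X, if_neg (by omega)]
      split_ifs <;> norm_num
    have h2 : 0 ≤ ∑ x ∈ antidiagonal t, (AP m).coeff x.1 * (AP m).coeff x.2 := by
      apply Finset.sum_nonneg
      intro x hx
      rw [HasAntidiagonal.mem_antidiagonal] at hx
      by_cases h3 : x.1 = 0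
      · rw [AP_coeff_big m x.2 (by omega)]; simp
      · by_cases h4 : x.2 = 0
        · rw [AP_coeff_big m x.1 (by omega)]; simp
        · exact mul_nonneg_of_nonpos_of_nonpos (AP_coeff_nonpos m _ (by omega))
            (AP_coeff_nonpos m _ (by omega))
    linarith
  · rw [CP_coeff_small m t h]

lemma CP_bound (m n : ℕ) (hn : n + 1 ≤ 2 * m + 2) (y : ℂ) (ρ : ℝ) (hy : ‖y‖ ≤ ρ) :
    ‖aeval (y ^ 2) (CP m)‖ * ρ ^ (n + 1) ≤ ‖y‖ ^ (n + 1) * (CP m).eval (ρ ^ 2) := by
  have hρ : 0 ≤ ρ := le_trans (norm_nonneg _) hy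
  rw [aeval_eq_sum_range, eval_eq_sum_range, Finset.mul_sum]
  calc ‖∑ i ∈ range ((CP m).natDegree + 1), (CP m).coeff i • (y ^ 2) ^ i‖ * ρ ^ (n + 1)
      ≤ (∑ i ∈ range ((CP m).natDegree + 1), ‖(CP m).coeff i • (y ^ 2) ^ i‖) * ρ ^ (n + 1) := by
        apply mul_le_mul_of_nonneg_right (norm_sum_le _ _) (by positivity)
    _ = ∑ i ∈ range ((CP m).natDegree + 1), ‖(CP m).coeff i • (y ^ 2) ^ i‖ * ρ ^ (n + 1) := by
        rw [Finset.sum_mul]
    _ ≤ _ := by
        apply Finset.sum_le_sum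
        intro i _
        rcases Nat.lt_or_ge m i with h | h
        · rw [norm_smul, norm_pow, norm_pow, Real.norm_of_nonneg (CP_coeff_nonneg m i)]
          have hc := CP_coeff_nonneg m i
          obtain ⟨j, hj⟩ : ∃ j, 2 * i = (n + 1) + j := ⟨2 * i - (n + 1), by omega⟩
          have e1 : (‖y‖ ^ 2) ^ i = ‖y‖ ^ (n + 1) * ‖y‖ ^ j := by
            rw [← pow_mul, hj, pow_add]
          have e2 : (ρ ^ 2) ^ i = ρ ^ (n + 1) * ρ ^ j := by
            rw [← pow_mul, hj, pow_add]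
          rw [e1, e2]
          have e3 : ‖y‖ ^ j ≤ ρ ^ j := pow_le_pow_left₀ (norm_nonneg _) hy j
          have e4 : 0 ≤ (CP m).coeff i * ‖y‖ ^ (n + 1) * ρ ^ (n + 1) := by positivity
          calc (CP m).coeff i * (‖y‖ ^ (n + 1) * ‖y‖ ^ j) * ρ ^ (n + 1)
              = ((CP m).coeff i * ‖y‖ ^ (n + 1) * ρ ^ (n + 1)) * ‖y‖ ^ j := by ring
            _ ≤ ((CP m).coeff i * ‖y‖ ^ (n + 1) * ρ ^ (n + 1)) * ρ ^ j :=
                mul_le_mul_of_nonneg_left e3 e4
            _ = _ := by ring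
        · rw [CP_coeff_small m i h]; simp

lemma AP_taylor (m : ℕ) : AP m = C (b m) *
    ∑ k ∈ range (m + 1), C (-(m.choose k : ℝ) / (2 * k - 1)) * (X - 1) ^ k := by
  induction m with
  | zero => rw [AP_zero]; simp [b_zero]
  | succ m ih =>
    have hX : (X : ℝ[X]) ^ (m + 1)
        = ∑ k ∈ range (m + 1 + 1), C ((m + 1).choose k : ℝ) * (X - 1) ^ k := by
      have h1 : (X : ℝ[X]) ^ (m + 1) = ((X - 1) + 1) ^ (m + 1) := by ring
      rw [h1, add_pow]
      apply Finset.sum_congr rfl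
      intro k _
      simp
      ring
    have hext : ∑ k ∈ range (m + 1), C (-(m.choose k : ℝ) / (2 * k - 1)) * (X - 1) ^ k
        = ∑ k ∈ range (m + 1 + 1), C (-(m.choose k : ℝ) / (2 * k - 1)) * ((X : ℝ[X]) - 1) ^ k := by
      rw [Finset.sum_range_succ _ (m + 1)]
      simp
    rw [AP_succ, ih, hX, hext, Finset.mul_sum, Finset.mul_sum, Finset.mul_sum,
      ← Finset.sum_sub_distrib]
    apply Finset.sum_congr rfl
    intro k hk
    rw [mem_range] at hk
    rw [← mul_assoc, ← mul_assoc, ← mul_assoc, ← C_mul, ← C_mul, ← C_mul, ← sub_mul, ← C_sub]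
    congr 2
    have hch : ((m : ℝ) + 1 - k) * ((m + 1).choose k : ℝ) = ((m : ℝ) + 1) * (m.choose k : ℝ) := by
      have h := Nat.choose_mul_succ_eq m k
      have h2 := congrArg (fun x : ℕ => (x : ℝ)) h
      have hk2 : k ≤ m + 1 := by omega
      push_cast [Nat.cast_sub hk2] at h2
      linarith
    have h2k : (2 * (k : ℝ) - 1) ≠ 0 := by
      intro h0
      have : (2 * (k : ℝ)) = 1 := by linarith
      have h3 : ((2 * k : ℕ) : ℝ) = ((1 : ℕ) : ℝ) := by push_cast; linarith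
      have := Nat.cast_injective h3
      omega
    rw [b_succ]
    have hm2 : (2 * (m : ℝ) + 2) ≠ 0 := by positivity
    field_simp
    linear_combination (2 * b m) * hch

/-! ### The change of variables -/

/-- `D_n(y) = ∑_{i≤n} s_i y^i` -/
noncomputable def D (n : ℕ) (y : ℂ) : ℂ := ∑ i ∈ range (n + 1), (s i : ℂ) * y ^ i

lemma D_zero (y : ℂ) : D 0 y = 1 := by simp [D, s, b_zero]

lemma D_succ (n : ℕ) (y : ℂ) : D (n + 1) y = D n y + (s (n + 1) : ℂ) * y ^ (n + 1) := by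
  unfold D
  rw [Finset.sum_range_succ _ (n + 1)]

lemma two_mul_pascal (n : ℕ) (z : ℂ) (hz : 1 + z ^ 2 ≠ 0) :
    2 * aeval z (pascalian n)
      = (1 + z ^ 2) ^ n * ((1 + z) + (1 - z) * D n (2 * z / (1 + z ^ 2))) := by
  induction n with
  | zero =>
    rw [pascalian_aeval, D_zero]
    simp
    ring
  | succ n ih =>
    rw [pascal_rec, D_succ, mul_add, ← mul_assoc, mul_comm 2 (1 + z ^ 2), mul_assoc, ih]
    have hM : (Mc n : ℂ) = 2 ^ n * (s (n + 1) : ℂ) := by
      have := Mc_eq n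
      have h2 := congrArg (fun x : ℝ => (x : ℂ)) this
      push_cast at h2
      exact h2
    rw [hM]
    have hpow : (1 + z ^ 2) ^ (n + 1) * (2 * z / (1 + z ^ 2)) ^ (n + 1) = 2 ^ (n + 1) * z ^ (n + 1) := by
      rw [← mul_pow, mul_div_cancel₀ _ hz, mul_pow]
    have e : (1 + z ^ 2) ^ (n + 1) * ((1 + z) + (1 - z) * (D n (2 * z / (1 + z ^ 2))
        + (s (n + 1) : ℂ) * (2 * z / (1 + z ^ 2)) ^ (n + 1)))
        = (1 + z ^ 2) * ((1 + z ^ 2) ^ n * ((1 + z) + (1 - z) * D n (2 * z / (1 + z ^ 2))))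
          + (1 - z) * (s (n + 1) : ℂ) *
            ((1 + z ^ 2) ^ (n + 1) * (2 * z / (1 + z ^ 2)) ^ (n + 1)) := by
      ring
    rw [e, hpow]
    ring

lemma one_sub_mul_D (n : ℕ) (y : ℂ) :
    (1 - y) * D n y = aeval (y ^ 2) (AP (n / 2)) - (b (n / 2) : ℂ) * y ^ (n + 1) := by
  induction n with
  | zero =>
    rw [D_zero]
    simp [AP_zero, b_zero]
  | succ n ih =>
    rw [D_succ, mul_add, ih]
    rcases Nat.even_or_odd n with ⟨l, hl⟩ | ⟨l, hl⟩
    · have h1 : n = 2 * l := by omega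
      subst h1
      have e1 : (2 * l) / 2 = l := by omega
      have e2 : (2 * l + 1) / 2 = l := by omega
      simp only [s, e1, e2]
      ring
    · subst hl
      have e1 : (2 * l + 1) / 2 = l := by omega
      have e2 : (2 * l + 1 + 1) / 2 = l + 1 := by omega
      simp only [s, e1, e2]
      rw [AP_succ]
      simp only [map_sub, map_mul, map_pow, aeval_C, aeval_X, Complex.coe_algebraMap]
      ring

lemma one_add_sq_ne (z : ℂ) (hz : ‖z‖ < 1) : 1 + z ^ 2 ≠ 0 := by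
  intro h
  have h1 : z ^ 2 = -1 := by linear_combination h
  have h2 : ‖z ^ 2‖ = 1 := by rw [h1]; simp
  rw [norm_pow] at h2
  have h3 : 0 ≤ ‖z‖ := norm_nonneg z
  nlinarith

/-- `κ = (1-z²)/(1+z²)` has positive real part -/
lemma kappa_re_pos (z : ℂ) (hz : ‖z‖ < 1) : 0 < ((1 - z ^ 2) / (1 + z ^ 2)).re := by
  have hne := one_add_sq_ne z hz
  have h0 : 0 < Complex.normSq (1 + z ^ 2) := Complex.normSq_pos.mpr hne
  rw [Complex.div_re, ← add_div]
  apply div_pos _ h0
  have h3 : ‖z‖ ^ 2 < 1 := by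
    have := norm_nonneg z
    nlinarith
  rw [← Complex.normSq_eq_norm_sq, Complex.normSq_apply] at h3
  have h4 : (z ^ 2).re = z.re * z.re - z.im * z.im := by rw [sq, Complex.mul_re]
  have h5 : (z ^ 2).im = 2 * z.re * z.im := by rw [sq, Complex.mul_im]; ring
  simp only [Complex.sub_re, Complex.add_re, Complex.one_re, Complex.sub_im, Complex.add_im,
    Complex.one_im, h4, h5]
  have h6 : 0 ≤ z.re * z.re + z.im * z.im :=
    add_nonneg (mul_self_nonneg _) (mul_self_nonneg _)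
  nlinarith [sq_nonneg (z.re * z.re + z.im * z.im)]

lemma kappa_sq (z : ℂ) (hz : 1 + z ^ 2 ≠ 0) :
    ((1 - z ^ 2) / (1 + z ^ 2)) ^ 2 = 1 - (2 * z / (1 + z ^ 2)) ^ 2 := by
  field_simp
  ring

lemma root_kappa_D (n : ℕ) (z : ℂ) (hz : 1 + z ^ 2 ≠ 0) (hr : aeval z (pascalian n) = 0) :
    (1 + z) + (1 - z) * D n (2 * z / (1 + z ^ 2)) = 0 := by
  have h := two_mul_pascal n z hz
  rw [hr, mul_zero] at h
  exact (mul_eq_zero.mp h.symm).resolve_left (pow_ne_zero _ hz)

lemma root_kappa (n : ℕ) (z : ℂ) (hz : 1 + z ^ 2 ≠ 0) (hr : aeval z (pascalian n) = 0) :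
    aeval ((2 * z / (1 + z ^ 2)) ^ 2) (AP (n / 2)) + (1 - z ^ 2) / (1 + z ^ 2)
      = (b (n / 2) : ℂ) * (2 * z / (1 + z ^ 2)) ^ (n + 1) := by
  have h1 := root_kappa_D n z hz hr
  have h2 := one_sub_mul_D n (2 * z / (1 + z ^ 2))
  have h3 : (1 - z ^ 2) / (1 + z ^ 2) + (1 - 2 * z / (1 + z ^ 2)) * D n (2 * z / (1 + z ^ 2)) = 0 := by
    have : (1 - z ^ 2) / (1 + z ^ 2) + (1 - 2 * z / (1 + z ^ 2)) * D n (2 * z / (1 + z ^ 2))
      = ((1 - z) / (1 + z ^ 2)) * ((1 + z) + (1 - z) * D n (2 * z / (1 + z ^ 2))) := by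
      have : (1 - 2 * z / (1 + z ^ 2)) = (1 - z) * ((1 - z) / (1 + z ^ 2)) := by
        field_simp
        ring
      rw [this]
      have h4 : (1 - z ^ 2) / (1 + z ^ 2) = (1 + z) * ((1 - z) / (1 + z ^ 2)) := by
        field_simp
        ring
      rw [h4]
      ring
    rw [this, h1, mul_zero]
  rw [h2] at h3
  linear_combination h3

/-! ### Numerical estimates -/

lemma b_sq_le (m : ℕ) : b m ^ 2 * (3 * m + 1) ≤ 1 := by
  induction m with
  | zero => simp [b_zero]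
  | succ m ih =>
    rw [b_succ]
    have h : (0:ℝ) < 2 * m + 2 := by positivity
    have hm : (0:ℝ) ≤ m := by positivity
    push_cast
    rw [mul_pow, div_pow]
    have hb : 0 ≤ b m ^ 2 := by positivity
    have h2 : b m ^ 2 * ((2 * (m:ℝ) + 1) ^ 2 / (2 * m + 2) ^ 2) * (3 * (m + 1) + 1)
        = (b m ^ 2 * (3 * m + 1)) * (((2 * (m:ℝ) + 1) ^ 2 * (3 * m + 4)) / ((2 * m + 2) ^ 2 * (3 * m + 1))) := by
      field_simp
      ring
    rw [h2]
    have h3 : ((2 * (m:ℝ) + 1) ^ 2 * (3 * m + 4)) / ((2 * m + 2) ^ 2 * (3 * m + 1)) ≤ 1 := by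
      rw [div_le_one (by positivity)]
      nlinarith
    have h4 : 0 ≤ ((2 * (m:ℝ) + 1) ^ 2 * (3 * m + 4)) / ((2 * m + 2) ^ 2 * (3 * m + 1)) := by
      positivity
    have h5 : 0 ≤ b m ^ 2 * (3 * (m:ℝ) + 1) := by positivity
    nlinarith

lemma b_sq_ge (m : ℕ) (hm : 1 ≤ m) : 1 ≤ b m ^ 2 * (4 * m) := by
  induction m, hm using Nat.le_induction with
  | base => rw [b_succ, b_zero]; norm_num
  | succ m hm ih =>
    rw [b_succ]
    have hm1 : (1:ℝ) ≤ m := by exact_mod_cast hm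
    push_cast
    rw [mul_pow, div_pow]
    have h2 : b m ^ 2 * ((2 * (m:ℝ) + 1) ^ 2 / (2 * m + 2) ^ 2) * (4 * (m + 1))
        = (b m ^ 2 * (4 * m)) * (((2 * (m:ℝ) + 1) ^ 2 * (m + 1)) / ((2 * m + 2) ^ 2 * m)) := by
      field_simp
    rw [h2]
    have h3 : 1 ≤ ((2 * (m:ℝ) + 1) ^ 2 * (m + 1)) / ((2 * m + 2) ^ 2 * m) := by
      rw [one_le_div (by positivity)]
      nlinarith
    nlinarith

/-- `ρ_n = (n+2)/(n+1)` -/
noncomputable def rho (n : ℕ) : ℝ := 1 + 1 / ((n : ℝ) + 1)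

lemma rho_pow_le (n : ℕ) : rho n ^ (n + 1) ≤ Real.exp 1 := by
  have h : rho n ≤ Real.exp (1 / ((n : ℝ) + 1)) := by
    unfold rho
    have := Real.add_one_le_exp (1 / ((n : ℝ) + 1))
    linarith
  have h0 : 0 ≤ rho n := by unfold rho; positivity
  calc rho n ^ (n + 1) ≤ (Real.exp (1 / ((n : ℝ) + 1))) ^ (n + 1) := pow_le_pow_left₀ h0 h _
    _ = Real.exp 1 := by
      rw [← Real.exp_nat_mul]
      congr 1
      push_cast
      field_simp

lemma two_le_rho_pow (n : ℕ) : 2 ≤ rho n ^ (n + 1) := by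
  have h := one_add_mul_le_pow (a := 1 / ((n : ℝ) + 1)) (by
    have : (0:ℝ) ≤ 1 / ((n : ℝ) + 1) := by positivity
    linarith) (n + 1)
  unfold rho
  push_cast at h
  have h2 : ((n : ℝ) + 1) * (1 / ((n : ℝ) + 1)) = 1 := by field_simp
  linarith

lemma one_le_rho (n : ℕ) : 1 ≤ rho n := by
  unfold rho
  have : (0:ℝ) ≤ 1 / ((n : ℝ) + 1) := by positivity
  linarith

/-- value of the taylor expansion over the reals -/
lemma AP_eval (m : ℕ) (δ : ℝ) : (AP m).eval (1 + δ) = b m *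
    ∑ k ∈ range (m + 1), (-(m.choose k : ℝ) / (2 * k - 1)) * δ ^ k := by
  rw [AP_taylor, eval_mul, eval_C, eval_finsetSum]
  congr 1
  apply Finset.sum_congr rfl
  intro k _
  simp

lemma AP_aeval (m : ℕ) (δ : ℂ) : aeval (1 + δ) (AP m) = (b m : ℂ) *
    ∑ k ∈ range (m + 1), ((-(m.choose k : ℝ) / (2 * k - 1) : ℝ) : ℂ) * δ ^ k := by
  rw [AP_taylor]
  simp only [map_mul, aeval_C, Complex.coe_algebraMap, map_sum]
  congr 1
  apply Finset.sum_congr rfl
  intro k _
  simp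

/-- bound of a binomial tail -/
lemma tail_le (m : ℕ) (t : ℝ) :
    ∑ k ∈ range (m - 1), (m.choose (k + 2) : ℝ) * t ^ (k + 2) = (1 + t) ^ m - 1 - m * t := by
  rcases Nat.lt_or_ge m 1 with h | h
  · have : m = 0 := by omega
    subst this
    simp
  · have h1 : (1 + t) ^ m = ∑ k ∈ range (m + 1), (m.choose k : ℝ) * t ^ k := by
      rw [add_comm, add_pow]
      apply Finset.sum_congr rfl
      intro k _
      simp
      ring
    have h2 : m + 1 = (m - 1) + 2 := by omega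
    rw [h1, h2, Finset.sum_range_succ', Finset.sum_range_succ']
    simp

/-- the value `A_m(R)` for `R = 1 + δ`, `m δ ≤ 1` -/
lemma AP_eval_bounds (m : ℕ) (hm : 2 ≤ m) (δ : ℝ) (h0 : 0 ≤ δ) (h1 : (m : ℝ) * δ ≤ 1)
    (h2 : 0.72 ≤ (m : ℝ) * δ) :
    |(AP m).eval (1 + δ)| ≤ 0.28 * b m := by
  have hb := b_pos m
  have hsplit : ∑ k ∈ range (m + 1), (-(m.choose k : ℝ) / (2 * k - 1)) * δ ^ k
      = 1 - m * δ - ∑ k ∈ range (m - 1), ((m.choose (k + 2) : ℝ) / (2 * k + 3)) * δ ^ (k + 2) := by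
    have h2 : m + 1 = (m - 1) + 2 := by omega
    rw [h2, Finset.sum_range_succ', Finset.sum_range_succ']
    have e : ∑ k ∈ range (m - 1), (-(m.choose (k + 1 + 1) : ℝ) / (2 * ((k + 1 + 1 : ℕ) : ℝ) - 1)) * δ ^ (k + 1 + 1)
       = - ∑ k ∈ range (m - 1), ((m.choose (k + 2) : ℝ) / (2 * k + 3)) * δ ^ (k + 2) := by
      rw [← Finset.sum_neg_distrib]
      apply Finset.sum_congr rfl
      intro k _
      have : (2 * ((k + 1 + 1 : ℕ) : ℝ) - 1) = 2 * k + 3 := by push_cast; ring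
      rw [this]
      ring
    rw [e]
    norm_num
    ring
  set T := ∑ k ∈ range (m - 1), ((m.choose (k + 2) : ℝ) / (2 * k + 3)) * δ ^ (k + 2) with hT
  have hT0 : 0 ≤ T := by
    apply Finset.sum_nonneg
    intro k _
    positivity
  have hT1 : T ≤ (1/3) * ((1 + δ) ^ m - 1 - m * δ) := by
    rw [← tail_le m δ, Finset.mul_sum, hT]
    apply Finset.sum_le_sum
    intro k _
    have h3 : (m.choose (k + 2) : ℝ) / (2 * k + 3) ≤ (m.choose (k + 2) : ℝ) / 3 := by
      apply div_le_div_of_nonneg_left (by positivity) (by norm_num)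
      have : (0:ℝ) ≤ k := by positivity
      linarith
    have h4 : 0 ≤ δ ^ (k + 2) := by positivity
    calc _ ≤ (m.choose (k + 2) : ℝ) / 3 * δ ^ (k + 2) := mul_le_mul_of_nonneg_right h3 h4
      _ = _ := by ring
  have hexp : (1 + δ) ^ m ≤ Real.exp (m * δ) := by
    have : 1 + δ ≤ Real.exp δ := by have := Real.add_one_le_exp δ; linarith
    calc (1 + δ) ^ m ≤ (Real.exp δ) ^ m := pow_le_pow_left₀ (by linarith) this _
      _ = _ := by rw [← Real.exp_nat_mul]
  have hexp2 : Real.exp (m * δ) - m * δ ≤ Real.exp 1 - 1 := by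
    have h5 := Real.add_one_le_exp (1 - (m : ℝ) * δ)
    have h6 : Real.exp 1 = Real.exp (m * δ) * Real.exp (1 - m * δ) := by
      rw [← Real.exp_add]; congr 1; ring
    have h7 : 1 ≤ Real.exp (m * δ) := by
      apply Real.one_le_exp
      positivity
    rw [h6]
    nlinarith
  have he := Real.exp_one_lt_d9
  rw [AP_eval, hsplit, abs_mul, abs_of_pos hb, mul_comm]
  apply mul_le_mul_of_nonneg_right _ hb.le
  rw [abs_le]
  constructor
  · linarith
  · linarith

lemma delta_bounds (n m : ℕ) (hm : 2 ≤ m) (hmn : 2 * m ≤ n) (hnm : n ≤ 2 * m + 1) :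
    (m : ℝ) * (rho n ^ 2 - 1) ≤ 1 ∧ 0.72 ≤ (m : ℝ) * (rho n ^ 2 - 1) := by
  have h1 : rho n ^ 2 - 1 = (2 * (n:ℝ) + 3) / ((n:ℝ) + 1) ^ 2 := by
    unfold rho
    have : ((n:ℝ) + 1) ≠ 0 := by positivity
    field_simp
    ring
  rw [h1]
  have hm' : (2:ℝ) ≤ m := by exact_mod_cast hm
  have hmn' : 2 * (m:ℝ) ≤ n := by exact_mod_cast hmn
  have hnm' : (n:ℝ) ≤ 2 * m + 1 := by exact_mod_cast hnm
  constructor
  · rw [← mul_div_assoc, div_le_one (by positivity)]
    nlinarith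
  · rw [← mul_div_assoc, le_div_iff₀ (by positivity)]
    -- 0.72 (n+1)^2 ≤ m (2 n + 3)
    nlinarith

lemma real_aux1 (m B E e : ℝ) (hE2 : 2 ≤ E) (hEe : E ≤ e)
    (he : e < 2.7182818286) (h3 : 1 ≤ B ^ 2 * (4 * m)) (h4 : m * B ^ 2 ≤ 1 / 3) :
    1 ≤ m * (B * E) ^ 2 ∧ m * (B * E) ^ 2 ≤ 2.4631 := by
  have e1 : m * (B * E) ^ 2 = (m * B ^ 2) * E ^ 2 := by ring
  rw [e1]
  have h5 : 1 / 4 ≤ m * B ^ 2 := by linarith
  have h6 : 4 ≤ E ^ 2 := by nlinarith
  have h7 : E ^ 2 ≤ 7.38906 := by nlinarith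
  constructor
  · nlinarith
  · nlinarith

lemma real_aux2 (m X q c K : ℝ) (hm : 0 < m) (hX : 0 < X) (hq : 0 ≤ q) (hK : 0 ≤ K)
    (h1 : 1 ≤ m * X ^ 2) (h2 : m * X ^ 2 ≤ 2.4631) (h3 : m * c ≤ 1.0262) (h4 : q * X ≤ c)
    (h5 : 2 * K ≤ X + q) : m * K ^ 2 ≤ 5 / 4 := by
  have h6 : m * (X + q) ^ 2 * (m * X ^ 2) ≤ (m * X ^ 2 + 1.0262) ^ 2 := by
    have h7 : m * (X + q) ^ 2 * (m * X ^ 2) = (m * X ^ 2 + m * (q * X)) ^ 2 := by ring
    rw [h7]
    apply pow_le_pow_left₀ (by positivity)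
    have : m * (q * X) ≤ m * c := mul_le_mul_of_nonneg_left h4 hm.le
    linarith
  obtain ⟨p, hp⟩ : ∃ p, p = m * X ^ 2 := ⟨_, rfl⟩
  rw [← hp] at h1 h2 h6
  have h8 : (p + 1.0262) ^ 2 ≤ 5 * p := by
    nlinarith [mul_nonneg (sub_nonneg.mpr h1) (sub_nonneg.mpr h2)]
  have h9 : m * (X + q) ^ 2 * p ≤ 5 * p := le_trans h6 h8
  have h10 : m * (X + q) ^ 2 ≤ 5 := le_of_mul_le_mul_right h9 (by linarith)
  have h11 : (2 * K) ^ 2 ≤ (X + q) ^ 2 := pow_le_pow_left₀ (by positivity) h5 2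
  have h12 : m * (2 * K) ^ 2 ≤ m * (X + q) ^ 2 := mul_le_mul_of_nonneg_left h11 hm.le
  nlinarith

/-- the crucial bound for `κ` -/
lemma kappa_bound (n m : ℕ) (hm : 2 ≤ m) (hmn : 2 * m ≤ n) (hnm : n ≤ 2 * m + 1)
    (y κ : ℂ) (hκ : κ ^ 2 = 1 - y ^ 2) (hy : ‖y‖ ≤ rho n) (hy0 : y ≠ 0)
    (hroot : aeval (y ^ 2) (AP m) + κ = (b m : ℂ) * y ^ (n + 1)) :
    (m : ℝ) * ‖κ‖ ^ 2 ≤ 5 / 4 := by
  have hb := b_pos m
  have hm' : (2:ℝ) ≤ m := by exact_mod_cast hm
  set E : ℝ := rho n ^ (n + 1) with hE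
  have hE2 : 2 ≤ E := two_le_rho_pow n
  have hEe : E ≤ Real.exp 1 := rho_pow_le n
  have he := Real.exp_one_lt_d9
  set Xr : ℝ := b m * E with hXr
  have hXpos : 0 < Xr := by positivity
  set c : ℝ := (CP m).eval (rho n ^ 2) with hc
  -- the value of c
  obtain ⟨hd1, hd2⟩ := delta_bounds n m hm hmn hnm
  have hcval : c = ((AP m).eval (rho n ^ 2)) ^ 2 + (rho n ^ 2 - 1) := by
    rw [hc]
    unfold CP
    simp
    ring
  have hδ0 : 0 ≤ rho n ^ 2 - 1 := by
    have := one_le_rho n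
    nlinarith
  have hA := AP_eval_bounds m hm (rho n ^ 2 - 1) hδ0 hd1 hd2
  rw [show 1 + (rho n ^ 2 - 1) = rho n ^ 2 by ring] at hA
  have hb2 := b_sq_le m
  have hb3 := b_sq_ge m (by omega)
  have hA2 : ((AP m).eval (rho n ^ 2)) ^ 2 ≤ 0.0784 * b m ^ 2 := by
    have := abs_nonneg ((AP m).eval (rho n ^ 2))
    rw [← sq_abs]
    nlinarith
  have hc0 : 0 ≤ c := by rw [hcval]; positivity
  have hmb : (m : ℝ) * b m ^ 2 ≤ 1 / 3 := by nlinarith [sq_nonneg (b m)]
  have hmc : (m : ℝ) * c ≤ 1.0262 := by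
    rw [hcval]
    nlinarith
  -- norms
  have hX : ‖aeval (y ^ 2) (AP m) + κ‖ = b m * ‖y‖ ^ (n + 1) := by
    rw [hroot, norm_mul, norm_pow, Complex.norm_real, Real.norm_of_nonneg hb.le]
  have hX1 : ‖aeval (y ^ 2) (AP m) + κ‖ ≤ Xr := by
    rw [hX, hXr]
    apply mul_le_mul_of_nonneg_left _ hb.le
    exact pow_le_pow_left₀ (norm_nonneg _) hy _
  have hprod : ‖aeval (y ^ 2) (AP m) - κ‖ * (b m * ‖y‖ ^ (n + 1)) = ‖aeval (y ^ 2) (CP m)‖ := by
    rw [← hX, ← norm_mul]
    congr 1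
    unfold CP
    simp only [map_sub, map_pow, map_one, aeval_X]
    linear_combination (-1 : ℂ) * hκ
  have hcb := CP_bound m n (by omega) y (rho n) hy
  rw [← hprod] at hcb
  have hypos : 0 < ‖y‖ ^ (n + 1) := by
    have := norm_pos_iff.mpr hy0
    positivity
  have hY : ‖aeval (y ^ 2) (AP m) - κ‖ * Xr ≤ c := by
    have h1 : ‖y‖ ^ (n + 1) * (‖aeval (y ^ 2) (AP m) - κ‖ * Xr) ≤ ‖y‖ ^ (n + 1) * c := by
      calc ‖y‖ ^ (n + 1) * (‖aeval (y ^ 2) (AP m) - κ‖ * Xr)
          = ‖aeval (y ^ 2) (AP m) - κ‖ * (b m * ‖y‖ ^ (n + 1)) * rho n ^ (n + 1) := by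
            rw [hXr, hE]; ring
        _ ≤ _ := hcb
    exact le_of_mul_le_mul_left h1 hypos
  have h2κ : 2 * ‖κ‖ ≤ Xr + ‖aeval (y ^ 2) (AP m) - κ‖ := by
    have : (2 : ℂ) * κ = (aeval (y ^ 2) (AP m) + κ) - (aeval (y ^ 2) (AP m) - κ) := by ring
    have h3 : ‖(2 : ℂ) * κ‖ ≤ ‖aeval (y ^ 2) (AP m) + κ‖ + ‖aeval (y ^ 2) (AP m) - κ‖ := by
      rw [this]; exact norm_sub_le _ _
    rw [norm_mul] at h3
    simp at h3
    linarith
  obtain ⟨hp1, hp2⟩ := real_aux1 m (b m) E (Real.exp 1) hE2 hEe he hb3 hmb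
  exact real_aux2 m Xr ‖aeval (y ^ 2) (AP m) - κ‖ c ‖κ‖ (by linarith) hXpos (norm_nonneg _)
    (norm_nonneg _) hp1 hp2 hmc hY h2κ

/-- polar lemma -/
lemma polar (v : ℂ) (N : ℕ) (r : ℝ) (hre : 0 < v.re) (hv : ‖1 - v‖ ≤ r) (hN : (N : ℝ) * r ≤ 2)
    (i : ℕ) (hi : i ≤ N) : 0 ≤ (v ^ i).im * v.im := by
  set θ := v.arg with hθ
  have hpi := Real.pi_pos
  have hθ2 : |θ| < Real.pi / 2 := Complex.abs_arg_lt_pi_div_two_iff.mpr (Or.inl hre)
  have hv1 : v = (‖v‖ : ℂ) * Complex.exp (θ * Complex.I) := (Complex.norm_mul_exp_arg_mul_I v).symm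
  have him : v.im = ‖v‖ * Real.sin θ := by
    rw [hθ]
    exact (Complex.norm_mul_sin_arg v).symm
  have hre2 : v.re = ‖v‖ * Real.cos θ := by
    rw [hθ]
    exact (Complex.norm_mul_cos_arg v).symm
  have hpow : (v ^ i).im = ‖v‖ ^ i * Real.sin (i * θ) := by
    have h1 : v ^ i = ((‖v‖ ^ i : ℝ) : ℂ) * Complex.exp (((i * θ : ℝ) : ℂ) * Complex.I) := by
      conv_lhs => rw [hv1]
      rw [mul_pow, ← Complex.exp_nat_mul]
      push_cast
      ring_nf
    rw [h1, Complex.im_ofReal_mul, Complex.exp_ofReal_mul_I_im]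
  have hsin : |Real.sin θ| ≤ r := by
    have h1 : Real.sin θ ^ 2 ≤ ‖1 - v‖ ^ 2 := by
      rw [← Complex.normSq_eq_norm_sq, Complex.normSq_apply]
      simp only [Complex.sub_re, Complex.one_re, Complex.sub_im, Complex.one_im]
      rw [him, hre2]
      have := Real.sin_sq_add_cos_sq θ
      nlinarith [sq_nonneg (‖v‖ - Real.cos θ)]
    exact le_trans (abs_le_of_sq_le_sq h1 (norm_nonneg _)) hv
  have habs : |θ| ≤ r * (Real.pi / 2) := by
    have h1 := Real.mul_le_sin (abs_nonneg θ) hθ2.le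
    have h2 : Real.sin |θ| = |Real.sin θ| := by
      rcases abs_cases θ with ⟨h, h'⟩ | ⟨h, h'⟩
      · rw [h]
        rw [abs_of_nonneg]
        apply Real.sin_nonneg_of_nonneg_of_le_pi h'
        rw [h] at hθ2; linarith
      · rw [h, Real.sin_neg]
        rw [abs_of_nonpos]
        apply Real.sin_nonpos_of_nonpos_of_neg_pi_le h'.le
        rw [h] at hθ2; linarith
    rw [h2] at h1
    have h3 : 2 / Real.pi * |θ| ≤ r := le_trans h1 hsin
    rw [div_mul_eq_mul_div, div_le_iff₀ hpi] at h3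
    linarith
  have hiθ : (i : ℝ) * |θ| ≤ Real.pi := by
    have h1 : (i : ℝ) ≤ N := by exact_mod_cast hi
    have h2 : (i : ℝ) * |θ| ≤ N * (r * (Real.pi / 2)) :=
      mul_le_mul h1 habs (abs_nonneg _) (by positivity)
    nlinarith
  rw [hpow, him]
  have hnv := norm_nonneg v
  rcases le_total 0 θ with h | h
  · rw [abs_of_nonneg h] at hiθ hθ2
    have h1 : 0 ≤ Real.sin (i * θ) := Real.sin_nonneg_of_nonneg_of_le_pi (by positivity) hiθ
    have h2 : 0 ≤ Real.sin θ := Real.sin_nonneg_of_nonneg_of_le_pi h (by linarith)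
    positivity
  · rw [abs_of_nonpos h] at hiθ hθ2
    have h1 : Real.sin (i * θ) ≤ 0 := by
      apply Real.sin_nonpos_of_nonpos_of_neg_pi_le
      · exact mul_nonpos_of_nonneg_of_nonpos (by positivity) h
      · linarith
    have h2 : Real.sin θ ≤ 0 := Real.sin_nonpos_of_nonpos_of_neg_pi_le h (by linarith)
    have h3 : 0 ≤ Real.sin (i * θ) * Real.sin θ := mul_nonneg_of_nonpos_of_nonpos h1 h2
    have h4 : 0 ≤ ‖v‖ ^ i * ‖v‖ := by positivity
    nlinarith [mul_nonneg h4 h3]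

/-- `A_m(w) + b_m w^m` is close to `2 b_m` -/
lemma AP_add_bound (m : ℕ) (δ : ℂ) :
    ‖aeval (1 + δ) (AP m) + (b m : ℂ) * (1 + δ) ^ m - 2 * (b m : ℂ)‖
      ≤ b m * ((1 + ‖δ‖) ^ m - 1 - m * ‖δ‖) := by
  have hb := b_pos m
  have h1 : (1 + δ) ^ m = ∑ k ∈ range (m + 1), (m.choose k : ℂ) * δ ^ k := by
    rw [add_comm, add_pow]
    apply Finset.sum_congr rfl
    intro k _
    simp
    ring
  have h2 : aeval (1 + δ) (AP m) + (b m : ℂ) * (1 + δ) ^ m
      = (b m : ℂ) * ∑ k ∈ range (m + 1),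
        ((-(m.choose k : ℝ) / (2 * k - 1) + m.choose k : ℝ) : ℂ) * δ ^ k := by
    rw [AP_aeval, h1, ← mul_add, ← Finset.sum_add_distrib]
    congr 1
    apply Finset.sum_congr rfl
    intro k _
    push_cast
    ring
  rcases Nat.lt_or_ge m 1 with hm | hm
  · have : m = 0 := by omega
    subst this
    rw [h2]
    simp [b_zero]
    norm_num
  · have h3 : ∑ k ∈ range (m + 1),
        ((-(m.choose k : ℝ) / (2 * k - 1) + m.choose k : ℝ) : ℂ) * δ ^ k
        = 2 + ∑ k ∈ range (m - 1),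
          (((m.choose (k + 2) : ℝ) * ((2 * k + 2) / (2 * k + 3)) : ℝ) : ℂ) * δ ^ (k + 2) := by
      have h2 : m + 1 = (m - 1) + 2 := by omega
      rw [h2, Finset.sum_range_succ', Finset.sum_range_succ']
      have e : ∀ k : ℕ, (-(m.choose (k + 1 + 1) : ℝ) / (2 * ((k + 1 + 1 : ℕ) : ℝ) - 1)
          + (m.choose (k + 1 + 1) : ℝ)) = (m.choose (k + 2) : ℝ) * ((2 * k + 2) / (2 * k + 3)) := by
        intro k
        have h5 : (2 * ((k + 1 + 1 : ℕ) : ℝ) - 1) = 2 * k + 3 := by push_cast; ring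
        rw [h5]
        field_simp
        ring
      simp only [e]
      norm_num
      ring
    rw [h2, h3, mul_add, mul_comm (b m : ℂ) 2, add_sub_cancel_left, norm_mul, Complex.norm_real,
      Real.norm_of_nonneg hb.le]
    apply mul_le_mul_of_nonneg_left _ hb.le
    rw [← tail_le]
    apply norm_sum_le_of_le
    intro k _
    rw [norm_mul, norm_pow, Complex.norm_real, Real.norm_of_nonneg (by positivity)]
    apply mul_le_mul_of_nonneg_right _ (by positivity)
    have h6 : (2 * (k:ℝ) + 2) / (2 * k + 3) ≤ 1 := by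
      rw [div_le_one (by positivity)]; linarith
    have h7 : (0:ℝ) ≤ m.choose (k + 2) := by positivity
    nlinarith

lemma exp_five_fourths : Real.exp (5 / 4) ≤ 7 / 2 := by
  have h1 : Real.exp (5 / 4) ^ 4 = Real.exp 1 ^ 5 := by
    rw [← Real.exp_nat_mul, ← Real.exp_nat_mul]
    congr 1
    norm_num
  have h2 := Real.exp_one_lt_d9
  have h3 : Real.exp 1 ^ 5 ≤ 2.7182818286 ^ 5 :=
    pow_le_pow_left₀ (Real.exp_pos 1).le h2.le 5
  have h4 : Real.exp (5 / 4) ^ 4 ≤ (7 / 2) ^ 4 := by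
    rw [h1]
    refine le_trans h3 ?_
    norm_num
  exact le_of_pow_le_pow_left₀ (by norm_num) (by norm_num) h4

lemma tail_num (m : ℕ) (hm : 3 ≤ m) (t : ℝ) (ht : 0 ≤ t) (hmt : (m : ℝ) * t ≤ 5 / 4) :
    (1 + t) ^ m - 1 - m * t ≤ 5 / 4 := by
  have hexp : (1 + t) ^ m ≤ Real.exp (m * t) := by
    have : 1 + t ≤ Real.exp t := by have := Real.add_one_le_exp t; linarith
    calc (1 + t) ^ m ≤ (Real.exp t) ^ m := pow_le_pow_left₀ (by linarith) this _
      _ = _ := by rw [← Real.exp_nat_mul]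
  have h5 := Real.add_one_le_exp (5 / 4 - (m : ℝ) * t)
  have h6 : Real.exp (5 / 4) = Real.exp (m * t) * Real.exp (5 / 4 - m * t) := by
    rw [← Real.exp_add]; congr 1; ring
  have h7 : 1 ≤ Real.exp (m * t) := by
    apply Real.one_le_exp
    positivity
  have h8 := exp_five_fourths
  nlinarith

/-- sign lemma for power sums with nonnegative coefficients -/
lemma sum_im_mul (v : ℂ) (N : ℕ) (a : ℕ → ℝ) (ha : ∀ i, 0 ≤ a i)
    (hN : 1 ≤ N) (hpol : ∀ i ≤ N, 0 ≤ (v ^ i).im * v.im) :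
    a 1 * v.im ^ 2 ≤ (∑ i ∈ range (N + 1), (a i : ℂ) * v ^ i).im * v.im := by
  rw [Complex.im_sum, Finset.sum_mul]
  have h1 : ∀ i ∈ range (N + 1), 0 ≤ ((a i : ℂ) * v ^ i).im * v.im := by
    intro i hi
    rw [mem_range] at hi
    rw [Complex.im_ofReal_mul, mul_assoc]
    exact mul_nonneg (ha i) (hpol i (by omega))
  have h2 := Finset.single_le_sum h1 (mem_range.mpr (by omega : 1 < N + 1))
  refine le_trans (le_of_eq ?_) h2
  rw [Complex.im_ofReal_mul, pow_one]
  ring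

lemma sum_re_nonneg (v : ℂ) (N : ℕ) (a : ℕ → ℝ) (ha : ∀ i, 0 ≤ a i)
    (him : v.im = 0) (hre : 0 ≤ v.re) :
    0 ≤ (∑ i ∈ range (N + 1), (a i : ℂ) * v ^ i).re := by
  rw [Complex.re_sum]
  apply Finset.sum_nonneg
  intro i _
  have hv : v = (v.re : ℂ) := by
    apply Complex.ext <;> simp [him]
  rw [hv, ← Complex.ofReal_pow, ← Complex.ofReal_mul, Complex.ofReal_re]
  exact mul_nonneg (ha i) (pow_nonneg hre _)

lemma no_root_odd (m : ℕ) (hm : 1 ≤ m) (w κ : ℂ) (hκ : κ ^ 2 = 1 - w) (hκre : 0 < κ.re)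
    (t : ℝ) (hnw : ‖1 - w‖ = t) (ht1 : t < 1) (hmt : (m : ℝ) * t ≤ 2)
    (hroot : aeval w (AP m) + κ = (b m : ℂ) * w ^ (m + 1)) : False := by
  have hwre : 0 < w.re := by
    have h1 := Complex.abs_re_le_norm (1 - w)
    rw [hnw, Complex.sub_re, Complex.one_re] at h1
    have := abs_le.mp h1
    linarith [this.2]
  obtain ⟨T, hT⟩ : ∃ T, T = ∑ l ∈ range (m + 1), (b l : ℂ) * w ^ l := ⟨_, rfl⟩
  have hA : aeval w (AP m) = (b m : ℂ) * w ^ m + (1 - w) * ∑ l ∈ range m, (b l : ℂ) * w ^ l := by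
    unfold AP SP
    simp only [map_add, map_mul, map_sub, map_one, map_pow, aeval_C, aeval_X,
      Complex.coe_algebraMap, map_sum]
  have hT2 : T = ∑ l ∈ range m, (b l : ℂ) * w ^ l + (b m : ℂ) * w ^ m := by
    rw [hT, Finset.sum_range_succ]
  have hκT : κ * T = -1 := by
    have h1 : κ * (κ * T + 1) = 0 := by
      have : κ * (κ * T + 1) = κ ^ 2 * T + κ := by ring
      rw [this, hκ, hT2]
      rw [hA] at hroot
      linear_combination hroot
    have hκ0 : κ ≠ 0 := by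
      rintro rfl
      simp at hκre
    have h2 := (mul_eq_zero.mp h1).resolve_left hκ0
    linear_combination h2
  have hpol := polar w m t hwre hnw.le hmt
  have h1 := sum_im_mul w m b (fun i => (b_pos i).le) hm hpol
  rw [← hT] at h1
  -- components
  have hre := congrArg Complex.re hκT
  have him := congrArg Complex.im hκT
  simp only [Complex.mul_re, Complex.mul_im, Complex.neg_re, Complex.neg_im, Complex.one_re,
    Complex.one_im] at hre him
  have hwim : w.im = -(2 * κ.re * κ.im) := by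
    have h2 := congrArg Complex.im hκ
    rw [sq, Complex.mul_im, Complex.sub_im, Complex.one_im] at h2
    linarith
  -- T.im * |κ|² = κ.im, T.re * |κ|² = - κ.re
  have hTim : T.im * (κ.re ^ 2 + κ.im ^ 2) = κ.im := by
    linear_combination κ.re * him - κ.im * hre
  have hTre : T.re * (κ.re ^ 2 + κ.im ^ 2) = -κ.re := by
    linear_combination κ.re * hre + κ.im * him
  have hn : 0 < κ.re ^ 2 + κ.im ^ 2 := by positivity
  have hb1 : 0 < b 1 := b_pos 1
  have h3 : (b 1 * w.im ^ 2) * (κ.re ^ 2 + κ.im ^ 2) ≤ -(2 * κ.re * κ.im ^ 2) := by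
    calc (b 1 * w.im ^ 2) * (κ.re ^ 2 + κ.im ^ 2)
        ≤ (T.im * w.im) * (κ.re ^ 2 + κ.im ^ 2) := mul_le_mul_of_nonneg_right h1 hn.le
      _ = (T.im * (κ.re ^ 2 + κ.im ^ 2)) * w.im := by ring
      _ = _ := by rw [hTim, hwim]; ring
  have h4 : κ.im ^ 2 ≤ 0 := by
    have : 0 ≤ (b 1 * w.im ^ 2) * (κ.re ^ 2 + κ.im ^ 2) := by positivity
    nlinarith
  have h5 : κ.im = 0 := by nlinarith
  have h6 : w.im = 0 := by rw [hwim, h5]; ring
  have h7 := sum_re_nonneg w m b (fun i => (b_pos i).le) h6 hwre.le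
  rw [← hT] at h7
  nlinarith

lemma no_root_even_pos (n : ℕ) (hn : 1 ≤ n) (z y : ℂ) (hz : ‖z‖ < 1)
    (hy : y = 2 * z / (1 + z ^ 2)) (hyre : 0 < y.re) (hny : (n : ℝ) * ‖1 - y‖ ≤ 2)
    (hroot : (1 + z) + (1 - z) * D n y = 0) : False := by
  have hne := one_add_sq_ne z hz
  have hpol := polar y n ‖1 - y‖ hyre le_rfl hny
  have hs : ∀ i, 0 ≤ s i := fun i => (b_pos _).le
  have h1 := sum_im_mul y n s hs hn hpol
  have hs1 : s 1 = 1 := by simp [s, b_zero]
  rw [hs1, one_mul] at h1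
  change y.im ^ 2 ≤ (D n y).im * y.im at h1
  obtain ⟨T, hT⟩ : ∃ T, T = D n y := ⟨_, rfl⟩
  rw [← hT] at h1 hroot
  have hre := congrArg Complex.re hroot
  have him := congrArg Complex.im hroot
  simp only [Complex.mul_re, Complex.mul_im, Complex.add_re, Complex.add_im, Complex.sub_re,
    Complex.sub_im, Complex.one_re, Complex.one_im, Complex.zero_re, Complex.zero_im] at hre him
  have h3 : ‖z‖ ^ 2 < 1 := by
    have := norm_nonneg z
    nlinarith
  rw [← Complex.normSq_eq_norm_sq, Complex.normSq_apply] at h3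
  obtain ⟨a, ha⟩ : ∃ a, a = z.re := ⟨_, rfl⟩
  obtain ⟨c, hc⟩ : ∃ c, c = z.im := ⟨_, rfl⟩
  rw [← ha, ← hc] at hre him h3
  have hN : 0 < (1 - a) ^ 2 + c ^ 2 := by
    have : a < 1 := by nlinarith
    have : 0 < (1 - a) ^ 2 := by
      apply pow_pos; linarith
    positivity
  have hTim : T.im * ((1 - a) ^ 2 + c ^ 2) = -2 * c := by
    linear_combination (1 - a) * him + c * hre
  have hTre : T.re * ((1 - a) ^ 2 + c ^ 2) = -(1 - (a * a + c * c)) := by
    linear_combination (1 - a) * hre - c * him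
  -- y.im
  have hy2 : y * (1 + z ^ 2) = 2 * z := by
    rw [hy]; field_simp
  have hyim : y.im * Complex.normSq (1 + z ^ 2) = 2 * c * (1 - (a * a + c * c)) := by
    have h4 : y * (Complex.normSq (1 + z ^ 2) : ℂ) = 2 * z * (starRingEnd ℂ) (1 + z ^ 2) := by
      rw [Complex.normSq_eq_conj_mul_self, ← hy2]
      ring
    have h5 := congrArg Complex.im h4
    rw [Complex.im_mul_ofReal] at h5
    rw [h5]
    simp only [map_add, map_one, Complex.mul_im, Complex.mul_re, Complex.add_re,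
      Complex.add_im, Complex.one_re, Complex.one_im, sq, Complex.conj_re, Complex.conj_im, map_mul,
      Complex.re_ofNat, Complex.im_ofNat]
    rw [← ha, ← hc]
    ring
  have hQ : 0 < Complex.normSq (1 + z ^ 2) := Complex.normSq_pos.mpr hne
  have h4 : y.im ^ 2 * (((1 - a) ^ 2 + c ^ 2) * Complex.normSq (1 + z ^ 2)) ≤ 0 := by
    calc y.im ^ 2 * (((1 - a) ^ 2 + c ^ 2) * Complex.normSq (1 + z ^ 2))
        ≤ (T.im * y.im) * (((1 - a) ^ 2 + c ^ 2) * Complex.normSq (1 + z ^ 2)) :=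
          mul_le_mul_of_nonneg_right h1 (by positivity)
      _ = (T.im * ((1 - a) ^ 2 + c ^ 2)) * (y.im * Complex.normSq (1 + z ^ 2)) := by ring
      _ = -4 * c ^ 2 * (1 - (a * a + c * c)) := by rw [hTim, hyim]; ring
      _ ≤ 0 := by nlinarith [sq_nonneg c]
  have h5 : y.im ^ 2 ≤ 0 := by
    by_contra hcon
    push Not at hcon
    have : 0 < y.im ^ 2 * (((1 - a) ^ 2 + c ^ 2) * Complex.normSq (1 + z ^ 2)) := by positivity
    linarith
  have h6 : y.im = 0 := by nlinarith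
  have h7 := sum_re_nonneg y n s hs h6 hyre.le
  change 0 ≤ (D n y).re at h7
  rw [← hT] at h7
  nlinarith

lemma no_root_even_neg (m : ℕ) (hm : 2 ≤ m) (y κ : ℂ) (hκ : κ ^ 2 = 1 - y ^ 2) (hκre : 0 < κ.re)
    (t : ℝ) (ht : t = ‖κ‖ ^ 2) (hmt : (m : ℝ) * t ≤ 5 / 4) (hyre : y.re < 0)
    (hy : ‖y‖ ≤ rho (2 * m))
    (hroot : aeval (y ^ 2) (AP m) + κ = (b m : ℂ) * y ^ (2 * m + 1)) : False := by
  have hb := b_pos m
  have ht0 : 0 ≤ t := by rw [ht]; positivity
  have hm2' : (2:ℝ) ≤ m := by exact_mod_cast hm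
  have ht58 : t ≤ 5 / 8 := by nlinarith
  have hδ : ‖y ^ 2 - 1‖ = t := by
    rw [ht, ← norm_pow, hκ, ← norm_neg]
    congr 1
    ring
  have h1 := AP_add_bound m (y ^ 2 - 1)
  rw [show (1 : ℂ) + (y ^ 2 - 1) = y ^ 2 by ring, hδ] at h1
  have h2 : (aeval (y ^ 2) (AP m) + (b m : ℂ) * (y ^ 2) ^ m - 2 * (b m : ℂ)) + κ + 2 * (b m : ℂ)
      = (b m : ℂ) * ((1 + y) * (y ^ 2) ^ m) := by
    have : y ^ (2 * m + 1) = y * (y ^ 2) ^ m := by rw [pow_succ, pow_mul]; ring
    rw [this] at hroot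
    linear_combination hroot
  have h3 := congrArg Complex.re h2
  rw [Complex.add_re, Complex.add_re, Complex.re_ofReal_mul] at h3
  have h4 : (2 * (b m : ℂ)).re = 2 * b m := by simp
  rw [h4] at h3
  have h5 := Complex.abs_re_le_norm (aeval (y ^ 2) (AP m) + (b m : ℂ) * (y ^ 2) ^ m - 2 * (b m : ℂ))
  have h6 := (abs_le.mp (le_trans h5 h1)).1
  have h7 : ((1 + y) * (y ^ 2) ^ m).re ≤ ‖1 + y‖ * ‖y‖ ^ (2 * m) := by
    refine le_trans (Complex.re_le_norm _) (le_of_eq ?_)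
    rw [norm_mul, norm_pow, norm_pow, pow_mul]
  have hnorm : ‖1 - y‖ * ‖1 + y‖ = t := by
    rw [ht, ← norm_pow, hκ, ← norm_mul]
    congr 1
    ring
  have h8 : 1 ≤ ‖1 - y‖ := by
    have := Complex.re_le_norm (1 - y)
    rw [Complex.sub_re, Complex.one_re] at this
    linarith
  have h9 : ‖1 + y‖ ≤ t := by
    rw [← hnorm]
    have := norm_nonneg (1 + y)
    nlinarith
  have h10 : 2 - t ≤ ‖1 - y‖ := by
    have h11 : ‖(2 : ℂ)‖ ≤ ‖1 - y‖ + ‖1 + y‖ := by
      have : (2 : ℂ) = (1 - y) + (1 + y) := by ring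
      rw [this]; exact norm_add_le _ _
    simp at h11
    linarith
  have h12 : (2 - t) * ‖1 + y‖ ≤ t := by
    rw [← hnorm]
    have := norm_nonneg (1 + y)
    nlinarith
  have hρ := one_le_rho (2 * m)
  have h13 : ‖y‖ ^ (2 * m) ≤ Real.exp 1 := by
    calc ‖y‖ ^ (2 * m) ≤ rho (2 * m) ^ (2 * m) := pow_le_pow_left₀ (norm_nonneg _) hy _
      _ ≤ rho (2 * m) ^ (2 * m + 1) := pow_le_pow_right₀ hρ (by omega)
      _ ≤ _ := rho_pow_le _
  have he := Real.exp_one_lt_d9
  have h14 : ‖1 + y‖ * ‖y‖ ^ (2 * m) ≤ ‖1 + y‖ * 2.7182818286 :=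
    mul_le_mul_of_nonneg_left (by linarith) (norm_nonneg _)
  -- combine
  have h15 : b m * (2 - ((1 + t) ^ m - 1 - m * t)) < b m * (‖1 + y‖ * 2.7182818286) := by
    have h16 : b m * ((1 + y) * (y ^ 2) ^ m).re ≤ b m * (‖1 + y‖ * 2.7182818286) :=
      mul_le_mul_of_nonneg_left (by linarith) hb.le
    nlinarith
  have h17 : 2 - ((1 + t) ^ m - 1 - m * t) < ‖1 + y‖ * 2.7182818286 :=
    lt_of_mul_lt_mul_left h15 hb.le
  rcases Nat.lt_or_ge m 3 with h | h
  · have : m = 2 := by omega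
    subst this
    norm_num at h17
    have h18 : ‖1 + y‖ ≤ 5 / 11 := by
      by_contra hcon
      push Not at hcon
      nlinarith
    nlinarith
  · have h18 := tail_num m h t ht0 hmt
    have hm3' : (3:ℝ) ≤ m := by exact_mod_cast h
    have ht512 : t ≤ 5 / 12 := by nlinarith
    have h19 : ‖1 + y‖ ≤ 5 / 19 := by
      by_contra hcon
      push Not at hcon
      nlinarith
    linarith

/-- the localisation theorem for `n ≥ 4` -/
lemma no_root (n : ℕ) (hn : 4 ≤ n) (z : ℂ) (hz : ‖z‖ < 1)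
    (hy : ‖2 * z / (1 + z ^ 2)‖ ≤ rho n) (hr : aeval z (pascalian n) = 0) : False := by
  obtain ⟨m, hm⟩ : ∃ m, m = n / 2 := ⟨_, rfl⟩
  have hm2 : 2 ≤ m := by omega
  have hne := one_add_sq_ne z hz
  have hz0 : z ≠ 0 := by
    rintro rfl
    rw [pascalian_aeval, Finset.sum_eq_single 0] at hr
    · simp at hr
    · intro j _ hj
      simp [hj]
    · simp
  have hκre := kappa_re_pos z hz
  have hκ2 := kappa_sq z hne
  have hrootD := root_kappa_D n z hne hr
  have hroot := root_kappa n z hne hr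
  obtain ⟨y, hydef⟩ : ∃ y, y = 2 * z / (1 + z ^ 2) := ⟨_, rfl⟩
  obtain ⟨κ, hκdef⟩ : ∃ κ, κ = (1 - z ^ 2) / (1 + z ^ 2) := ⟨_, rfl⟩
  rw [← hydef, ← hκdef, ← hm] at hroot
  rw [← hκdef] at hκre
  rw [← hydef, ← hκdef] at hκ2
  rw [← hydef] at hrootD hy
  have hy0 : y ≠ 0 := by
    rw [hydef]
    exact div_ne_zero (mul_ne_zero two_ne_zero hz0) hne
  have hb := b_pos m
  have hkb := kappa_bound n m hm2 (by omega) (by omega) y κ hκ2 hy hy0 hroot
  obtain ⟨t, ht⟩ : ∃ t, t = ‖κ‖ ^ 2 := ⟨_, rfl⟩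
  rw [← ht] at hkb
  have ht0 : 0 ≤ t := by rw [ht]; positivity
  have hm2' : (2:ℝ) ≤ m := by exact_mod_cast hm2
  have ht58 : t ≤ 5 / 8 := by nlinarith
  have hnorm : ‖1 - y‖ * ‖1 + y‖ = t := by
    rw [ht, ← norm_pow, hκ2, ← norm_mul]
    congr 1
    ring
  have hnw : ‖1 - y ^ 2‖ = t := by rw [ht, ← norm_pow, hκ2]
  rcases Nat.even_or_odd n with ⟨l, hl⟩ | ⟨l, hl⟩
  · have h1 : n = 2 * m := by omega
    subst h1
    rcases lt_trichotomy y.re 0 with h | h | h
    · exact no_root_even_neg m hm2 y κ hκ2 hκre t ht hkb h hy hroot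
    · -- y.re = 0
      have h2 : (y ^ 2).re ≤ 0 := by
        rw [sq, Complex.mul_re, h]
        nlinarith [mul_self_nonneg y.im]
      have h3 := Complex.re_le_norm (1 - y ^ 2)
      rw [hnw, Complex.sub_re, Complex.one_re] at h3
      linarith
    · have h8 : 1 ≤ ‖1 + y‖ := by
        have := Complex.re_le_norm (1 + y)
        rw [Complex.add_re, Complex.one_re] at this
        linarith
      have h9 : ‖1 - y‖ ≤ t := by
        rw [← hnorm]
        have := norm_nonneg (1 - y)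
        nlinarith
      have h10 : 2 - t ≤ ‖1 + y‖ := by
        have h11 : ‖(2 : ℂ)‖ ≤ ‖1 - y‖ + ‖1 + y‖ := by
          have : (2 : ℂ) = (1 - y) + (1 + y) := by ring
          rw [this]; exact norm_add_le _ _
        simp at h11
        linarith
      have h12 : ‖1 - y‖ * (2 - t) ≤ t := by
        rw [← hnorm]
        have := norm_nonneg (1 - y)
        nlinarith
      have h13 : ((2 * m : ℕ) : ℝ) * ‖1 - y‖ ≤ 2 := by
        push_cast
        have h14 : (2 * (m:ℝ) * ‖1 - y‖) * (2 - t) ≤ 2 * (2 - t) := by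
          have : (m : ℝ) * (‖1 - y‖ * (2 - t)) ≤ m * t :=
            mul_le_mul_of_nonneg_left h12 (by positivity)
          nlinarith
        exact le_of_mul_le_mul_right h14 (by linarith)
      exact no_root_even_pos (2 * m) (by omega) z y hz hydef h h13 hrootD
  · have h1 : n = 2 * m + 1 := by omega
    subst h1
    have h2 : y ^ (2 * m + 1 + 1) = (y ^ 2) ^ (m + 1) := by
      rw [← pow_mul]
      congr 1
    rw [h2] at hroot
    exact no_root_odd m (by omega) (y ^ 2) κ hκ2 hκre t hnw (by linarith) (by linarith) hroot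

/-! ### Small cases -/

lemma root_ne_zero (n : ℕ) (z : ℂ) (hr : aeval z (pascalian n) = 0) : z ≠ 0 := by
  rintro rfl
  rw [pascalian_aeval, Finset.sum_eq_single 0] at hr
  · simp at hr
  · intro j _ hj
    simp [hj]
  · simp

lemma no_root_two (z : ℂ) (hz : ‖z‖ < 1)
    (hy : ‖2 * z / (1 + z ^ 2)‖ ≤ rho 2) (hr : aeval z (pascalian 2) = 0) : False := by
  have hne := one_add_sq_ne z hz
  rw [pascalian_aeval] at hr
  simp only [Finset.sum_range_succ, Finset.sum_range_zero] at hr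
  norm_num [Nat.choose] at hr
  obtain ⟨y, hydef⟩ : ∃ y, y = 2 * z / (1 + z ^ 2) := ⟨_, rfl⟩
  rw [← hydef] at hy
  have hq : y ^ 2 + 3 * y + 4 = 0 := by
    have h1 : y * (1 + z ^ 2) = 2 * z := by rw [hydef]; field_simp
    have h2 : (y ^ 2 + 3 * y + 4) * (1 + z ^ 2) ^ 2 = 0 := by
      have : (y ^ 2 + 3 * y + 4) * (1 + z ^ 2) ^ 2
        = (y * (1 + z ^ 2)) ^ 2 + 3 * (y * (1 + z ^ 2)) * (1 + z ^ 2) + 4 * (1 + z ^ 2) ^ 2 := by
        ring
      rw [this, h1]
      linear_combination (2 * z ^ 2 + 2 * z + 4) * hr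
    exact (mul_eq_zero.mp h2).resolve_right (pow_ne_zero _ hne)
  have hre := congrArg Complex.re hq
  have him := congrArg Complex.im hq
  simp only [sq, Complex.add_re, Complex.mul_re, Complex.add_im, Complex.mul_im, Complex.re_ofNat,
    Complex.im_ofNat, Complex.zero_re, Complex.zero_im] at hre him
  have h1 : y.im * (2 * y.re + 3) = 0 := by linarith
  rcases mul_eq_zero.mp h1 with h | h
  · rw [h] at hre
    nlinarith [sq_nonneg (2 * y.re + 3)]
  · have h2 := Complex.abs_re_le_norm y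
    have h3 : y.re = -3 / 2 := by linarith
    rw [h3] at h2
    unfold rho at hy
    norm_num at h2 hy
    linarith

lemma no_root_three (z : ℂ) (hz : ‖z‖ < 1)
    (hy : ‖2 * z / (1 + z ^ 2)‖ ≤ rho 3) (hr : aeval z (pascalian 3) = 0) : False := by
  have hne := one_add_sq_ne z hz
  rw [pascalian_aeval] at hr
  simp only [Finset.sum_range_succ, Finset.sum_range_zero] at hr
  norm_num [Nat.choose] at hr
  have h1 : (1 + z) * (1 + 3 * z ^ 2) = 0 := by linear_combination hr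
  have hz1 : 1 + z ≠ 0 := by
    intro h
    have : z = -1 := by linear_combination h
    rw [this] at hz
    simp at hz
  have h2 := (mul_eq_zero.mp h1).resolve_left hz1
  have h3 : z ^ 2 = -(1 / 3) := by linear_combination (1 / 3) * h2
  have h4 : 2 * z / (1 + z ^ 2) = 3 * z := by
    rw [h3]
    ring
  rw [h4, norm_mul] at hy
  have h5 : ‖z‖ ^ 2 = 1 / 3 := by
    rw [← norm_pow, h3]
    simp
  unfold rho at hy
  norm_num at hy
  have := norm_nonneg z
  nlinarith

lemma no_root_all (n : ℕ) (z : ℂ) (hz : ‖z‖ < 1)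
    (hy : ‖2 * z / (1 + z ^ 2)‖ ≤ rho n) (hr : aeval z (pascalian n) = 0) : False := by
  rcases Nat.lt_or_ge n 4 with h | h
  · interval_cases n
    · rw [pascalian_aeval] at hr
      simp at hr
    · rw [pascalian_aeval] at hr
      simp [Finset.sum_range_succ] at hr
      have : z = -1 := by linear_combination hr
      rw [this] at hz
      simp at hz
    · exact no_root_two z hz hy hr
    · exact no_root_three z hz hy hr
  · exact no_root n h z hz hy hr

/-! ### Eneström–Kakeya -/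

lemma ek_identity {R : Type*} [CommRing R] (a : ℕ → R) (ρ y : R) (l : ℕ) :
    (y - ρ) * ∑ i ∈ range (l + 1), a i * y ^ i
      = a l * y ^ (l + 1) - ρ * a 0 - ∑ i ∈ range l, (ρ * a (i + 1) - a i) * y ^ (i + 1) := by
  induction l with
  | zero => simp; ring
  | succ l ih =>
    rw [Finset.sum_range_succ, mul_add, ih, Finset.sum_range_succ _ l]
    ring

lemma ek (a : ℕ → ℝ) (ρ : ℝ) (hρ : 0 ≤ ρ) (l : ℕ) (ha : ∀ i, 0 < a i)
    (hstep : ∀ i, a i ≤ ρ * a (i + 1)) (y : ℂ)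
    (h : ∑ i ∈ range (l + 1), (a i : ℂ) * y ^ i = 0) : ‖y‖ ≤ ρ := by
  have h1 := ek_identity (fun i => (a i : ℂ)) (ρ : ℂ) y l
  rw [h, mul_zero] at h1
  have h2 : (a l : ℂ) * y ^ (l + 1)
      = (ρ : ℂ) * a 0 + ∑ i ∈ range l, ((ρ : ℂ) * a (i + 1) - a i) * y ^ (i + 1) := by
    linear_combination -h1
  have h3 : a l * ‖y‖ ^ (l + 1)
      ≤ ρ * a 0 + ∑ i ∈ range l, (ρ * a (i + 1) - a i) * ‖y‖ ^ (i + 1) := by
    calc a l * ‖y‖ ^ (l + 1) = ‖(a l : ℂ) * y ^ (l + 1)‖ := by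
          rw [norm_mul, norm_pow, Complex.norm_real, Real.norm_of_nonneg (ha l).le]
      _ = ‖(ρ : ℂ) * a 0 + ∑ i ∈ range l, ((ρ : ℂ) * a (i + 1) - a i) * y ^ (i + 1)‖ := by rw [h2]
      _ ≤ ‖(ρ : ℂ) * a 0‖ + ‖∑ i ∈ range l, ((ρ : ℂ) * a (i + 1) - a i) * y ^ (i + 1)‖ :=
          norm_add_le _ _
      _ ≤ _ := by
          apply add_le_add
          · rw [← Complex.ofReal_mul, Complex.norm_real,
              Real.norm_of_nonneg (mul_nonneg hρ (ha 0).le)]
          · apply norm_sum_le_of_le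
            intro i _
            rw [norm_mul, norm_pow, ← Complex.ofReal_mul, ← Complex.ofReal_sub, Complex.norm_real,
              Real.norm_of_nonneg (by have := hstep i; linarith)]
  have h4 := ek_identity a ρ ‖y‖ l
  have h5 : (‖y‖ - ρ) * ∑ i ∈ range (l + 1), a i * ‖y‖ ^ i ≤ 0 := by
    rw [h4]; linarith
  have h6 : 0 < ∑ i ∈ range (l + 1), a i * ‖y‖ ^ i := by
    have h7 : ∀ i ∈ range (l + 1), 0 ≤ a i * ‖y‖ ^ i := fun i _ =>
      mul_nonneg (ha i).le (by positivity)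
    have h8 := Finset.single_le_sum h7 (mem_range.mpr (by omega : 0 < l + 1))
    simp only [pow_zero, mul_one] at h8
    exact lt_of_lt_of_le (ha 0) h8
  by_contra hcon
  push Not at hcon
  have : 0 < (‖y‖ - ρ) * ∑ i ∈ range (l + 1), a i * ‖y‖ ^ i := mul_pos (by linarith) h6
  linarith

lemma s_step (n i : ℕ) (hi : n + 1 ≤ i) : s i ≤ rho n * s (i + 1) := by
  have hρ := one_le_rho n
  rcases Nat.even_or_odd i with ⟨l, hl⟩ | ⟨l, hl⟩
  · have e1 : i / 2 = l := by omega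
    have e2 : (i + 1) / 2 = l := by omega
    simp only [s, e1, e2]
    have := b_pos l
    nlinarith
  · have e1 : i / 2 = l := by omega
    have e2 : (i + 1) / 2 = l + 1 := by omega
    simp only [s, e1, e2]
    rw [b_succ]
    have hb := b_pos l
    have h1 : 1 ≤ rho n * ((2 * (l:ℝ) + 1) / (2 * l + 2)) := by
      unfold rho
      have h2 : (n:ℝ) + 1 ≤ 2 * l + 1 := by
        have : n + 1 ≤ 2 * l + 1 := by omega
        exact_mod_cast this
      have h3 : 1 / (2 * (l:ℝ) + 1) ≤ 1 / ((n:ℝ) + 1) :=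
        one_div_le_one_div_of_le (by positivity) h2
      have h4 : 1 = (1 + 1 / (2 * (l:ℝ) + 1)) * ((2 * (l:ℝ) + 1) / (2 * l + 2)) := by
        field_simp
        ring
      calc (1:ℝ) = (1 + 1 / (2 * (l:ℝ) + 1)) * ((2 * (l:ℝ) + 1) / (2 * l + 2)) := h4
        _ ≤ _ := by
          apply mul_le_mul_of_nonneg_right _ (by positivity)
          linarith
    calc b l = 1 * b l := by ring
      _ ≤ (rho n * ((2 * (l:ℝ) + 1) / (2 * l + 2))) * b l := mul_le_mul_of_nonneg_right h1 hb.le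
      _ = _ := by ring

/-- nontrivial roots lie in the open unit disc -/
lemma norm_lt_one_of_root (n : ℕ) (z : ℂ) (hz : z ≠ -1) (hr : aeval z (pascalian n) = 0) :
    ‖z‖ < 1 := by
  rw [pascalian_aeval] at hr
  rcases Nat.lt_or_ge n 2 with hn | hn
  · interval_cases n
    · simp at hr
    · simp [Finset.sum_range_succ] at hr
      exact absurd (by linear_combination hr) hz
  -- coefficients, made positive and monotone beyond n as well
  obtain ⟨a, ha⟩ : ∃ a : ℕ → ℝ, a = fun j => if j ≤ n then (n.choose (j / 2) : ℝ)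
      else (n.choose (n / 2) : ℝ) := ⟨_, rfl⟩
  have hapos : ∀ i, 0 < a i := by
    intro i
    rw [ha]
    dsimp only
    split_ifs with h
    · exact_mod_cast Nat.choose_pos (by omega)
    · exact_mod_cast Nat.choose_pos (by omega)
  have hmono : ∀ i, a i ≤ a (i + 1) := by
    intro i
    rw [ha]
    dsimp only
    split_ifs with h1 h2 h2
    · have : n.choose (i / 2) ≤ n.choose ((i + 1) / 2) := by
        have h3 : (i + 1) / 2 = i / 2 ∨ (i + 1) / 2 = i / 2 + 1 := by omega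
        rcases h3 with h3 | h3
        · rw [h3]
        · rw [h3]
          exact Nat.choose_le_succ_of_lt_half_left (by omega)
      exact_mod_cast this
    · have : i = n := by omega
      rw [this]
    · omega
    · exact le_refl _
  have hr2 : ∑ j ∈ range (n + 1), (a j : ℂ) * z ^ j = 0 := by
    rw [← hr]
    apply Finset.sum_congr rfl
    intro j hj
    rw [mem_range] at hj
    rw [ha]
    dsimp only
    rw [if_pos (by omega)]
    simp
  have hle : ‖z‖ ≤ 1 := ek a 1 (by norm_num) n hapos (fun i => by rw [one_mul]; exact hmono i) z hr2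
  rcases lt_or_eq_of_le hle with h | h
  · exact h
  exfalso
  have h1 := ek_identity (fun i => (a i : ℂ)) 1 z n
  rw [hr2, mul_zero] at h1
  have h2 := ek_identity a 1 1 n
  simp only [sub_self, zero_mul, one_pow, mul_one, one_mul] at h1 h2
  have hmem : 1 ∈ range n := mem_range.mpr (by omega)
  rw [← Finset.add_sum_erase _ _ hmem] at h1 h2
  have h3 : (a n : ℂ) * z ^ (n + 1) = ((a 0 : ℂ) + ((a (1 + 1) : ℂ) - a 1) * z ^ (1 + 1))
      + ∑ i ∈ (range n).erase 1, ((a (i + 1) : ℂ) - a i) * z ^ (i + 1) := by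
    linear_combination -h1
  have h4 : ‖(a n : ℂ) * z ^ (n + 1)‖ = a n := by
    rw [norm_mul, norm_pow, h, one_pow, mul_one, Complex.norm_real, Real.norm_of_nonneg (hapos n).le]
  have h5 : ‖∑ i ∈ (range n).erase 1, ((a (i + 1) : ℂ) - a i) * z ^ (i + 1)‖
      ≤ ∑ i ∈ (range n).erase 1, (a (i + 1) - a i) := by
    apply norm_sum_le_of_le
    intro i _
    rw [norm_mul, norm_pow, h, one_pow, mul_one, ← Complex.ofReal_sub, Complex.norm_real,
      Real.norm_of_nonneg (by have := hmono i; linarith)]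
  have ha0 : a 0 = 1 := by rw [ha]; simp
  have ha1 : a 1 = 1 := by
    rw [ha]
    dsimp only
    rw [if_pos (by omega)]
    norm_num
  have ha2 : a (1 + 1) = n := by
    rw [ha]
    dsimp only
    rw [if_pos (by omega)]
    norm_num
  rw [ha0, ha1, ha2] at h3
  rw [ha0, ha1, ha2] at h2
  have hn' : (2:ℝ) ≤ n := by exact_mod_cast hn
  have h6 : (n : ℝ) ≤ ‖(1 : ℂ) + ((n : ℂ) - 1) * z ^ 2‖ := by
    have h7 : ‖(a n : ℂ) * z ^ (n + 1)‖ ≤ ‖(1 : ℂ) + ((n : ℂ) - 1) * z ^ 2‖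
        + ∑ i ∈ (range n).erase 1, (a (i + 1) - a i) := by
      rw [h3]
      refine le_trans (norm_add_le _ _) ?_
      apply add_le_add _ h5
      apply le_of_eq
      norm_num
    rw [h4] at h7
    linarith
  have h8 : (n : ℝ) ^ 2 ≤ ‖(1 : ℂ) + ((n : ℂ) - 1) * z ^ 2‖ ^ 2 :=
    pow_le_pow_left₀ (by linarith) h6 2
  rw [← Complex.normSq_eq_norm_sq, Complex.normSq_apply] at h8
  have h9 : (z ^ 2).re ^ 2 + (z ^ 2).im ^ 2 = 1 := by
    have : ‖z ^ 2‖ ^ 2 = 1 := by rw [norm_pow, h]; norm_num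
    rw [← Complex.normSq_eq_norm_sq, Complex.normSq_apply] at this
    linarith
  simp only [Complex.add_re, Complex.mul_re, Complex.add_im, Complex.mul_im, Complex.sub_re,
    Complex.sub_im, Complex.one_re, Complex.one_im, Complex.natCast_re, Complex.natCast_im] at h8
  have h10 : 1 ≤ (z ^ 2).re := by
    by_contra hcon
    push Not at hcon
    have : 0 < ((n:ℝ) - 1) * (1 - (z ^ 2).re) := mul_pos (by linarith) (by linarith)
    nlinarith
  have h11 : (z ^ 2).im = 0 := by nlinarith [sq_nonneg (z ^ 2).im]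
  have h12 : (z ^ 2).re = 1 := by
    have : (z ^ 2).re ≤ 1 := by nlinarith
    linarith
  have h13 : z ^ 2 = 1 := by
    apply Complex.ext
    · rw [h12]; simp
    · rw [h11]; simp
  have h14 : (z - 1) * (z + 1) = 0 := by linear_combination h13
  rcases mul_eq_zero.mp h14 with h15 | h15
  · have hz1 : z = 1 := by linear_combination h15
    rw [hz1] at hr2
    simp only [one_pow, mul_one] at hr2
    have h16 : ((∑ j ∈ range (n + 1), a j : ℝ) : ℂ) = 0 := by push_cast; exact hr2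
    have h17 : ∑ j ∈ range (n + 1), a j = 0 := by exact_mod_cast h16
    have h18 : 0 < ∑ j ∈ range (n + 1), a j :=
      Finset.sum_pos (fun i _ => hapos i) ⟨0, mem_range.mpr (by omega)⟩
    linarith
  · exact hz (by linear_combination h15)

/-- Two Pascalian polynomials of different index share no root other than `-1`. -/
theorem no_common (n N : ℕ) (hnN : n < N) (z : ℂ) (h1 : aeval z (pascalian n) = 0)
    (h2 : aeval z (pascalian N) = 0) : z = -1 := by
  by_contra hz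
  have hlt := norm_lt_one_of_root n z hz h1
  have hne := one_add_sq_ne z hlt
  have hz0 := root_ne_zero n z h1
  obtain ⟨y, hydef⟩ : ∃ y, y = 2 * z / (1 + z ^ 2) := ⟨_, rfl⟩
  have hy0 : y ≠ 0 := by
    rw [hydef]
    exact div_ne_zero (mul_ne_zero two_ne_zero hz0) hne
  have r1 := root_kappa_D n z hne h1
  have r2 := root_kappa_D N z hne h2
  rw [← hydef] at r1 r2
  have hz1 : 1 - z ≠ 0 := by
    intro h
    have : z = 1 := by linear_combination -h
    rw [this] at hlt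
    simp at hlt
  have hD : D n y = D N y := by
    have : (1 - z) * (D n y - D N y) = 0 := by linear_combination r1 - r2
    have := (mul_eq_zero.mp this).resolve_left hz1
    linear_combination this
  obtain ⟨l, hl⟩ : ∃ l, N + 1 = (n + 1) + (l + 1) := ⟨N - n - 1, by omega⟩
  have hsum : ∑ i ∈ range (l + 1), (s (n + 1 + i) : ℂ) * y ^ i = 0 := by
    have h3 : D N y = D n y + ∑ i ∈ range (l + 1), (s (n + 1 + i) : ℂ) * y ^ (n + 1 + i) := by
      unfold D
      rw [hl, Finset.sum_range_add]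
    rw [← hD] at h3
    have h4 : ∑ i ∈ range (l + 1), (s (n + 1 + i) : ℂ) * y ^ (n + 1 + i) = 0 := by
      linear_combination -h3
    have h5 : y ^ (n + 1) * ∑ i ∈ range (l + 1), (s (n + 1 + i) : ℂ) * y ^ i = 0 := by
      rw [← h4, Finset.mul_sum]
      apply Finset.sum_congr rfl
      intro i _
      rw [pow_add]
      ring
    exact (mul_eq_zero.mp h5).resolve_left (pow_ne_zero _ hy0)
  have hyle : ‖y‖ ≤ rho n := by
    have hρ := one_le_rho n
    apply ek (fun i => s (n + 1 + i)) (rho n) (by linarith) l (fun i => b_pos _) _ y hsum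
    intro i
    exact s_step n (n + 1 + i) (by omega)
  rw [hydef] at hyle
  exact no_root_all n z hlt hyle h1

/-- **Answer to Q1 (in the affirmative).** For every `n ≥ 1` and every `1 ≤ k ≤ n`, the Pascalian
polynomials `P_n` and `P_(n-k)` have no common complex root other than `-1`. -/
theorem result : ∀ n k : ℕ, 1 ≤ n → 1 ≤ k → k ≤ n → ∀ z : ℂ,
    aeval z (pascalian n) = 0 → aeval z (pascalian (n - k)) = 0 → z = -1 := by
  intro n k _ hk hkn z h1 h2
  exact no_common (n - k) n (by omega) z h2 h1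

end Pool.Agent.Results.MP_454c72_al.CommonRoots
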